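import Pool.Agent.Lib.MP_af3016_co.G.Bottom
import Pool.Agent.Lib.MP_af3016_co.C.Stack

/-! The induction over all lists. -/

set_option autoImplicit false
set_option linter.unusedSectionVars false

namespace Pool.Agent.Lib.MP_af3016_co

open Finset SimpleGraph

variable {V : Type} [DecidableEq V] {G : SimpleGraph V}

theorem all_list (l : List ℕ) :
    ∑ i ∈ range l.length, ({l.getD i 0} : Multiset ℕ) = (l : Multiset ℕ) := by
  induction l with
  | nil => simp
  | cons x t ih =>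
    rw [List.length_cons, sum_range_succ', add_comm]
    simp only [List.getD_cons_succ, List.getD_cons_zero, ih]
    rw [Multiset.singleton_add, Multiset.cons_coe]

/-- a multiset listed in non-increasing order -/
theorem all_sort (K : Multiset ℕ) : ∃ r : ℕ → ℕ, ∑ i ∈ range K.card, ({r i} : Multiset ℕ) = K ∧
    (∀ i < K.card, r i ∈ K) ∧ ∀ i j, i ≤ j → j < K.card → r j ≤ r i := by
  have e := Multiset.sort_eq K (· ≥ ·)
  have p := Multiset.pairwise_sort K (· ≥ ·)
  have c := Multiset.length_sort (s := K) (· ≥ ·)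
  generalize K.sort (· ≥ ·) = l at e p c
  subst e
  refine ⟨fun i => l.getD i 0, all_list l, fun i hi => ?_, fun i j hij hj => ?_⟩
  · have hi' : i < l.length := hi
    show l.getD i 0 ∈ l
    rw [List.getD_eq_getElem _ _ hi']
    exact List.getElem_mem hi'
  · have hj' : j < l.length := hj
    have hi' : i < l.length := by omega
    show l.getD j 0 ≤ l.getD i 0
    rw [List.getD_eq_getElem _ _ hi', List.getD_eq_getElem _ _ hj']
    rcases hij.lt_or_eq with g | rfl
    · exact List.pairwise_iff_getElem.1 p i j hi' hj' g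
    · exact le_rfl

theorem all_sum (f : ℕ → ℕ) (k : ℕ) :
    aS (∑ l ∈ range k, {f l}) = ∑ l ∈ range k, (f l + 1) / 2 ∧
      bS (∑ l ∈ range k, {f l}) = ∑ l ∈ range k, f l / 2 := by
  induction k with
  | zero => simp [aS, bS]
  | succ k ih =>
    rw [sum_range_succ, sum_range_succ, sum_range_succ, add_comm _ ({f k} : Multiset ℕ),
      Multiset.singleton_add, aS_cons, bS_cons, ih.1, ih.2]
    omega

theorem ezAll (n : ℕ) : ∀ (W : Finset V) (L : Multiset ℕ), W.card = n → (∀ x ∈ L, 3 ≤ x) →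
    L.sum = W.card → Hap G W (bS L) → Til G W L := by
  induction n using Nat.strong_induction_on with
  | _ n ihn =>
  intro W L hn hL hs hW
  have ih : IhA G W.card := fun X K g1 g2 g3 g4 => ihn X.card (hn ▸ g1) X K rfl g2 g3 g4
  by_cases h2 : (L.filter fun x => 5 ≤ x).card ≤ 2
  · exact ezF _ W L rfl ⟨hL, h2⟩ hs hW
  obtain ⟨r, r1, r2, r3⟩ := all_sort (L.filter fun x => 5 ≤ x)
  obtain ⟨j, hj⟩ : ∃ j, (L.filter fun x => 5 ≤ x).card = j + 2 :=
    ⟨(L.filter fun x => 5 ≤ x).card - 2, by omega⟩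
  rw [hj] at r1 r2 r3
  have r5 : ∀ i < j + 2, 5 ≤ r i := fun i hi => (Multiset.mem_filter.1 (r2 i hi)).2
  obtain ⟨M, hM, eL⟩ : ∃ M, (∀ x ∈ M, x = 3 ∨ x = 4) ∧ L = ∑ i ∈ range (j + 2), {r i} + M := by
    refine ⟨L.filter fun x => ¬5 ≤ x, fun x hx => ?_, by rw [r1, Multiset.filter_add_not]⟩
    have := hL x (Multiset.mem_filter.1 hx).1
    have := (Multiset.mem_filter.1 hx).2
    omega
  obtain ⟨f, f1, f2⟩ : ∃ f : ℕ → ℕ, (∀ l < j, f l = r (l + 2)) ∧ f j = r 0 :=
    ⟨fun l => if l < j then r (l + 2) else r 0, fun l hl => if_pos hl, if_neg (lt_irrefl j)⟩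
  have f5 : ∀ l < j + 1, 5 ≤ f l := fun l hl => by
    rcases (Nat.lt_succ_iff.1 hl).lt_or_eq with g | rfl
    · rw [f1 l g]
      exact r5 _ (by omega)
    · rw [f2]
      exact r5 _ (by omega)
  have eL' : L = r 1 ::ₘ M + ∑ l ∈ range (j + 1), {f l} := by
    have e : ∑ l ∈ range j, ({f l} : Multiset ℕ) = ∑ l ∈ range j, {r (l + 1 + 1)} :=
      sum_congr rfl fun l hl => by rw [f1 l (mem_range.1 hl)]
    rw [eL, sum_range_succ', sum_range_succ', sum_range_succ, f2, e, ← Multiset.singleton_add]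
    abel
  have nJ : Nz (∑ l ∈ range (j + 1), ({f l} : Multiset ℕ)) := by
    refine ⟨fun e => ?_, fun x hx => hL x (eL' ▸ Multiset.mem_add.2 (Or.inr hx))⟩
    rw [sum_range_succ, add_comm, Multiset.singleton_add] at e
    exact Multiset.cons_ne_zero e
  have nI : Nz (r 1 ::ₘ M) :=
    ⟨Multiset.cons_ne_zero, fun x hx => hL x (eL' ▸ Multiset.mem_add.2 (Or.inl hx))⟩
  rw [eL'] at hs hW ⊢
  rw [Multiset.sum_add] at hs
  rw [bS_add] at hW
  refine (ih.bottom (r5 1 (by omega)) hM nJ hs hW).elim id fun ⟨S, s1, s2⟩ => ?_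
  obtain ⟨e1, e2⟩ := all_sum f (j + 1)
  have e3 := (aS_bS (r 1 ::ₘ M)).1
  have e4 := (aS_bS (∑ l ∈ range (j + 1), ({f l} : Multiset ℕ))).1
  have e5 := aS_cons (r 1) M
  have e6 := bS_cons (r 1) M
  obtain ⟨a, a0, a1⟩ : ∃ a : ℕ → ℕ, a 0 = aS (r 1 ::ₘ M) ∧ ∀ l, a (l + 1) = (f l + 1) / 2 :=
    ⟨fun l => Nat.casesOn l (aS (r 1 ::ₘ M)) fun l => (f l + 1) / 2, rfl, fun _ => rfl⟩
  obtain ⟨b, b0, b1⟩ : ∃ b : ℕ → ℕ, b 0 = bS (r 1 ::ₘ M) ∧ ∀ l, b (l + 1) = f l / 2 :=
    ⟨fun l => Nat.casesOn l (bS (r 1 ::ₘ M)) fun l => f l / 2, rfl, fun _ => rfl⟩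
  have sa : ∑ i ∈ range (j + 1 + 1), a i = aS (∑ l ∈ range (j + 1), {f l}) + aS (r 1 ::ₘ M) := by
    rw [sum_range_succ', a0, e1, sum_congr rfl fun l _ => a1 l]
  have sb : ∑ i ∈ range (j + 1 + 1), b i = bS (∑ l ∈ range (j + 1), {f l}) + bS (r 1 ::ₘ M) := by
    rw [sum_range_succ', b0, e2, sum_congr rfl fun l _ => b1 l]
  have key := stack (G := G) (W := W) (I := r 1 ::ₘ M) (k := j + 1) (a := a) (b := b) ih
    (by omega) nI.1 nI.2 ⟨a0, b0⟩
    (fun l hl => by
      have := f5 l hl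
      rw [a1, b1]
      omega)
    (fun l hl => by
      rw [a1, b1, f1 l (by omega)]
      cases l with
      | zero =>
        have := r3 1 (0 + 2) (by omega) (by omega)
        omega
      | succ l =>
        have := r3 (l + 2) (l + 1 + 2) (by omega) (by omega)
        rw [a1, b1, f1 l (by omega)]
        omega)
    (fun l h1 hl => by
      obtain ⟨l, rfl⟩ : ∃ l', l = l' + 1 := ⟨l - 1, by omega⟩
      have := r3 0 (l + 2) (by omega) (by omega)
      rw [a1, b1, a1, b1, f2, f1 l (by omega)]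
      omega)
    (by omega) (by rw [sb, add_comm]; exact hW)
    ⟨S, by rw [sb, b0, Nat.add_sub_cancel]; exact s1, by omega⟩
  rwa [sum_congr rfl fun l _ => show ({a (l + 1) + b (l + 1)} : Multiset ℕ) = {f l} by
    rw [a1, b1]
    congr 1
    omega] at key

theorem mainAll [Fintype V] (G : SimpleGraph V) [DecidableRel G.Adj] (k : ℕ) (n : Fin k → ℕ)
    (h3 : ∀ i, 3 ≤ n i) (hs : ∑ i, n i = Fintype.card V)
    (hdeg : ∑ i, (n i + 1) / 2 ≤ G.minDegree) :
    ∃ (v : Fin k → V) (c : ∀ i, G.Walk (v i) (v i)),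
      (∀ i, (c i).IsCycle ∧ (c i).length = n i) ∧
      ∀ i j, i ≠ j → Disjoint (c i).support.toFinset (c j).support.toFinset := by
  have e1 : (univ.val.map n).sum = (univ : Finset V).card := hs
  have e2 : aS (univ.val.map n) = ∑ i, (n i + 1) / 2 := by
    unfold aS
    rw [Multiset.map_map]
    rfl
  have e3 := (aS_bS (univ.val.map n)).1
  have h := ezAll (G := G) _ univ (univ.val.map n) rfl (fun x hx => ?_) e1 fun v hv => ?_
  · obtain ⟨F, g1, g2⟩ := Til.family n univ univ h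
    choose v c k1 k2 k3 using fun i => (g1 i (mem_univ i)).1
    refine ⟨v, c, fun i => ⟨k1 i, (k2 i).trans (g1 i (mem_univ i)).2.1⟩, fun i j hij => ?_⟩
    rw [k3, k3]
    exact g2 i (mem_univ i) j (mem_univ j) hij
  · obtain ⟨i, -, rfl⟩ := Multiset.mem_map.1 hx
    exact h3 i
  · have g1 := dG_add_dH_in (G := G) hv
    have g2 : G.degree v ≤ dG G v univ := by
      rw [← G.card_neighborFinset_eq_degree]
      exact le_dG fun b hb => ⟨mem_univ b, (G.mem_neighborFinset v b).1 hb⟩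
    have g3 := G.minDegree_le_degree v
    omega

end Pool.Agent.Lib.MP_af3016_co
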