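import Pool.Agent.Lib.MP_af3016_co.G.X31

/-! All short cycles can be moved to the side of one long cycle. -/

set_option autoImplicit false
set_option linter.unusedSectionVars false

namespace Pool.Agent.Lib.MP_af3016_co

open Finset SimpleGraph

variable {V : Type} [DecidableEq V] {G : SimpleGraph V}

/-- the induction hypothesis for all lists -/
def IhA (G : SimpleGraph V) (n : ℕ) : Prop :=
  ∀ (X : Finset V) (L : Multiset ℕ), X.card < n → (∀ x ∈ L, 3 ≤ x) → L.sum = X.card →
    Hap G X (bS L) → Til G X L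

/-- a nonempty list of cycle lengths -/
def Nz (I : Multiset ℕ) : Prop := I ≠ 0 ∧ ∀ x ∈ I, 3 ≤ x

/-- some minimiser at the levels of `I`, `J` has more vertices than `I` needs -/
def Big (G : SimpleGraph V) (W : Finset V) (I J : Multiset ℕ) : Prop :=
  ∃ S, IsMin G W (bS I) (bS J) S ∧ I.sum < S.card

theorem Nz.two {I : Multiset ℕ} (h : Nz I) : 2 ≤ aS I ∧ 1 ≤ bS I := by
  obtain ⟨a, ha⟩ := Multiset.exists_mem_of_ne_zero h.1
  obtain ⟨K, rfl⟩ := Multiset.exists_cons_of_mem ha
  have := h.2 a ha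
  rw [aS_cons, bS_cons]
  omega

theorem Nz.cons {I : Multiset ℕ} {m : ℕ} (hm : 3 ≤ m) (h : ∀ x ∈ I, 3 ≤ x) : Nz (m ::ₘ I) :=
  ⟨Multiset.cons_ne_zero, fun x hx => (Multiset.mem_cons.1 hx).elim (fun e => e ▸ hm) (h x)⟩

theorem Nz.add {I M : Multiset ℕ} (hM : ∀ x ∈ M, 3 ≤ x) (h : Nz I) : Nz (M + I) :=
  ⟨fun e => h.1 (add_eq_zero.1 e).2, fun x hx => (Multiset.mem_add.1 hx).elim (hM x) (h.2 x)⟩

theorem IhA.ih {n : ℕ} (h : IhA G n) : Ih G n := fun X L h1 h2 => h X L h1 h2.1

theorem IhA.orc {W : Finset V} (ih : IhA G W.card) {L : Multiset ℕ} (h : ∀ x ∈ L, 3 ≤ x) {n β : ℕ}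
    (h1 : L.sum = n) (h2 : bS L = β) (h3 : n < W.card) : Orc G W n β L :=
  fun X _ g1 g2 => ih X L (by omega) h (by omega) (h2 ▸ g2)

theorem IhA.sq {W : Finset V} (ih : IhA G W.card) {I : Multiset ℕ} (h : Nz I)
    (h1 : I.sum < W.card) : Sq G W I (aS I) (bS I) :=
  ⟨(aS_bS I).2.1, h.two.1, h.two.2, ih.orc h.2 (aS_bS I).1.symm rfl ((aS_bS I).1 ▸ h1),
    (aS_bS I).1.symm, h.2, (aS_bS I).2.2⟩

/-- a minimiser of the exact size -/
theorem IhA.exact {W S : Finset V} (ih : IhA G W.card) {I J : Multiset ℕ} (hI : Nz I) (hJ : Nz J)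
    (hs : I.sum + J.sum = W.card) (hW : Hap G W (bS I + bS J))
    (h : IsMin G W (bS I) (bS J) S) (hc : S.card = I.sum) : Til G W (I + J) := by
  have c := card_sdiff_add_card_eq_card h.1
  have := (aS_bS I).1
  have := (aS_bS J).1
  have := hI.two
  have := hJ.two
  obtain ⟨g1, g2⟩ := h.hap hW
  have := (ih S I (by omega) hI.2 hc.symm g1).union (ih (W \ S) J (by omega) hJ.2 (by omega) g2)
    disjoint_sdiff
  rwa [union_sdiff_of_subset h.1] at this

/-- a minimiser that is too small for a single cycle -/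
theorem IhA.kl {W S : Finset V} (ih : IhA G W.card) {a : ℕ} {M : Multiset ℕ} (h3 : 3 ≤ a)
    (hM : Nz M) (hs : a + M.sum = W.card) (hW : Hap G W (a / 2 + bS M))
    (h : IsMin G W (a / 2) (bS M) S) (hc : S.card < a) : Til G W (a ::ₘ M) := by
  obtain ⟨e1, e2, e3⟩ := aS_bS (a ::ₘ M)
  have e4 := bS_cons a M
  have e5 := (aS_bS M).1
  have e6 := hM.two
  rw [Multiset.sum_cons] at e1
  obtain ⟨o, ho⟩ := Nat.exists_eq_add_of_le e2
  have hd : ∀ v ∈ W, W.card + o ≤ 2 * dG G v W := fun v hv => by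
    have := dG_add_dH_in (G := G) hv
    have := hW v hv
    omega
  obtain ⟨g1, g2⟩ := h.hap hW
  obtain ⟨S', x, y, k1, k2, k3, k4⟩ := kl1 h.1 h3 (by omega) hc g1 fun v hv => by
    have := hd v hv
    omega
  rcases kl2 k2 k4 (by omega) (by omega) (by
    by_cases g : o = 0
    · have := e3 (by omega) a (Multiset.mem_cons_self _ _)
      omega
    · omega) hd with ⟨u, hu, hu', k5⟩ | ⟨k5, k6⟩
  · have s1 : insert u S' ⊆ W := insert_subset hu k2
    have c1 := card_sdiff_add_card_eq_card s1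
    have c2 := card_insert_of_notMem hu'
    exact (ih (W \ insert u S') M (by omega) hM.2 (by omega)
      (g2.mono (sdiff_subset_sdiff subset_rfl (k1.trans (subset_insert _ _))))).add k5 (by omega)
      disjoint_sdiff (union_sdiff_of_subset s1).symm
  · have c1 := card_sdiff_add_card_eq_card k2
    have := til_prism (Nz.cons h3 hM.2).2 (e3 (by omega)) disjoint_sdiff k6
      (by rw [Multiset.sum_cons]; omega)
    rwa [union_sdiff_of_subset k2] at this

/-- a single cycle: tiled, or a minimiser with a surplus -/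
theorem IhA.first {W : Finset V} (ih : IhA G W.card) {a : ℕ} {M : Multiset ℕ} (h3 : 3 ≤ a)
    (hM : Nz M) (hs : a + M.sum = W.card) (hW : Hap G W (a / 2 + bS M)) :
    Til G W (a ::ₘ M) ∨ Big G W {a} M := by
  have eb : bS {a} = a / 2 := by simp [bS]
  obtain ⟨S0, m0⟩ := exists_isMin G W (a / 2) (bS M)
  rcases lt_trichotomy S0.card a with g | g | g
  · exact Or.inl (ih.kl h3 hM hs hW m0 g)
  · rw [← Multiset.singleton_add]
    exact Or.inl (ih.exact (Nz.cons h3 (by simp)) hM hs (by rw [eb]; exact hW)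
      (by rw [eb]; exact m0) g)
  · exact Or.inr ⟨S0, by rw [eb]; exact m0, g⟩

theorem x3_mid {W A B T : Finset V} {I J : Multiset ℕ} {s s' : ℕ} (ih : IhA G W.card) (hI : Nz I)
    (hJ : Nz J) (hs : I.sum + J.sum + 3 = W.card)
    (h : Wd G W A B T (aS I) (bS I) s (aS J) (bS J) s') (f : Wf G A B T s s') (h3 : 3 ∈ I)
    (e : s = 0) (e' : s' = 0) : Til G W (3 ::ₘ (I + J)) := by
  subst e e'
  have sI := ih.sq hI (by omega)
  have sJ := ih.sq hJ (by omega)
  have ne : aS I ≠ bS I := fun g => by have := sI.even g 3 h3; omega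
  obtain ⟨I0, rfl⟩ := Multiset.exists_cons_of_mem h3
  have e1 := sI.sum
  rw [Multiset.sum_cons] at e1 hs
  exact x3_one h f (lt_of_le_of_ne sI.le ne.symm) sJ.le sJ.one (n := I0.sum) (γ := bS I0)
    (by omega) (by rw [bS_cons]; omega)
    (ih.orc (fun x hx => hI.2 x (Multiset.mem_cons_of_mem hx)) rfl rfl (by omega)) sJ

/-- the crossing at a triangle when the list has a second triangle -/
theorem IhA.x3 {W S0 : Finset V} (ih : IhA G W.card) {I J : Multiset ℕ} (hI : Nz I) (hJ : Nz J)
    (h3 : 3 ∈ I + J) (hs : I.sum + J.sum + 3 = W.card) (hW : Hap G W (bS I + bS J + 1))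
    (h0 : IsMin G W (bS I) (bS J + 1) S0) (c0 : I.sum < S0.card)
    (h1 : ∀ S, IsMin G W (bS I + 1) (bS J) S → S.card < I.sum + 3) : Til G W (3 ::ₘ (I + J)) := by
  have sI := ih.sq hI (by omega)
  have sJ := ih.sq hJ (by omega)
  have e1 := sI.sum
  have e2 := sJ.sum
  obtain ⟨K, eK⟩ := Multiset.exists_cons_of_mem h3
  have e3 : 3 + K.sum = I.sum + J.sum := by rw [← Multiset.sum_cons, ← eK, Multiset.sum_add]
  have e4 : 1 + bS K = bS I + bS J := by rw [← bS_add, eK, bS_cons]
  have orc : Orc G W K.sum (bS K) K := ih.orc (fun x hx => (hJ.add hI.2).2 x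
    (eK ▸ Multiset.mem_cons_of_mem hx)) rfl rfl (by omega)
  have deg : ∀ v ∈ W, dH G v W ≤ bS I + bS J := fun v hv => Nat.lt_succ_iff.1 (hW v hv)
  have deg' : ∀ v ∈ W, dH G v W ≤ bS K + 1 := fun v hv => by have := deg v hv; omega
  rcases cross3Q sI sJ (by omega) hW h0 (by omega) (fun S g => by have := h1 S g; omega) with
    g | ⟨S, k1, k2, k3, k4, k5⟩ | ⟨A, B, T, s, s', h, f⟩
  · exact g
  · have hc := card_sdiff_add_card_eq_card k1
    by_cases e : S.card = aS I + bS I + 1
    · rcases case0Q sI sJ (mem_split k1) disjoint_sdiff e (by omega) k4 k5 deg with g | g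
      · exact g
      · rw [eK]
        exact x3_zero g (mem_split k1) orc (by omega) deg'
    · rcases case0Q sJ sI (fun v => (mem_split k1 v).trans or_comm) sdiff_disjoint (by omega)
        (by omega) k5 k4 (fun v hv => by have := deg v hv; omega) with g | g
      · rwa [add_comm]
      · rw [eK]
        exact x3_zero g (fun v => (mem_split k1 v).trans or_comm) orc (by omega) deg'
  · by_cases e : 1 ≤ s + s'
    · rw [eK]
      exact x3_big h f sI.le sJ.le e orc (by omega) deg'
    · rcases Multiset.mem_add.1 h3 with g | g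
      · exact x3_mid ih hI hJ hs h f g (by omega) (by omega)
      · rw [add_comm]
        exact x3_mid ih hJ hI (by omega) h.symm f.symm g (by omega) (by omega)

/-- the crossing at a triangle next to a single long cycle -/
theorem IhA.x31 {W S0 : Finset V} (ih : IhA G W.card) {c : ℕ} {J : Multiset ℕ} (hc : 5 ≤ c)
    (hJ : Nz J) (hs : c + J.sum + 3 = W.card) (hW : Hap G W (c / 2 + bS J + 1))
    (h0 : IsMin G W (c / 2) (bS J + 1) S0) (c0 : c < S0.card)
    (h1 : ∀ S, IsMin G W (c / 2 + 1) (bS J) S → S.card < c + 3) : Til G W (3 ::ₘ ({c} + J)) := by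
  have sI : Sq G W {c} ((c + 1) / 2) (c / 2) := by
    have := ih.sq (I := {c}) (Nz.cons (I := 0) (by omega) (by simp)) (by simp; omega)
    simpa [aS, bS] using this
  have sJ := ih.sq hJ (by omega)
  have e2 := sJ.sum
  have deg : ∀ v ∈ W, dH G v W ≤ c / 2 + bS J := fun v hv => Nat.lt_succ_iff.1 (hW v hv)
  rcases cross3Q sI sJ (by omega) hW h0 (by omega) (fun S g => by have := h1 S g; omega) with
    g | ⟨S, k1, k2, k3, k4, k5⟩ | ⟨A, B, T, s, s', h, f⟩
  · exact g
  · have hc := card_sdiff_add_card_eq_card k1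
    by_cases e : S.card = (c + 1) / 2 + c / 2 + 1
    · rcases case0Q sI sJ (mem_split k1) disjoint_sdiff e (by omega) k4 k5 deg with g | g
      · exact g
      · exact x31_zero ‹5 ≤ c› g (mem_split k1) sJ
    · rcases case0Q sJ sI (fun v => (mem_split k1 v).trans or_comm) sdiff_disjoint (by omega)
        (by omega) k5 k4 (fun v hv => by have := deg v hv; omega) with g | g
      · rwa [add_comm]
      · exact x31_zero' ‹5 ≤ c› g (fun v => (mem_split k1 v).trans or_comm) k5 sJ
  · exact x31_mid hc h f sI sJ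

/-- one short cycle changes sides -/
theorem IhA.step {W : Finset V} (ih : IhA G W.card) {m : ℕ} {I J : Multiset ℕ} (hI : Nz I)
    (hJ : Nz J) (hm : m = 4 ∨ m = 3 ∧ (3 ∈ I ∨ ∃ c, 5 ≤ c ∧ I = {c}))
    (hs : I.sum + (m ::ₘ J).sum = W.card) (hW : Hap G W (bS I + bS (m ::ₘ J)))
    (h : Big G W I (m ::ₘ J)) : Til G W (m ::ₘ (I + J)) ∨ Big G W (m ::ₘ I) J := by
  obtain ⟨S0, h0, c0⟩ := h
  have hI' : Nz (m ::ₘ I) := Nz.cons (by omega) hI.2
  rw [Multiset.sum_cons] at hs
  rw [bS_cons] at hW h0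
  have hs' : (m ::ₘ I).sum + J.sum = W.card := by rw [Multiset.sum_cons]; omega
  have hW' : Hap G W (bS (m ::ₘ I) + bS J) := by
    rw [bS_cons, add_comm (m / 2), add_assoc]
    exact hW
  by_cases big : Big G W (m ::ₘ I) J
  · exact Or.inr big
  left
  by_cases ex : ∃ S, IsMin G W (bS (m ::ₘ I)) (bS J) S ∧ S.card = (m ::ₘ I).sum
  · obtain ⟨S, g1, g2⟩ := ex
    rw [← Multiset.cons_add]
    exact ih.exact hI' hJ hs' hW' g1 g2
  have sm : ∀ S, IsMin G W (bS I + m / 2) (bS J) S → S.card < m + I.sum := by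
    intro S g
    rw [add_comm, ← bS_cons] at g
    rw [← Multiset.sum_cons]
    exact lt_of_le_of_ne (not_lt.1 fun g' => big ⟨S, g, g'⟩) fun g' => ex ⟨S, g, g'⟩
  have a1 := (aS_bS I).1
  have a2 := (aS_bS J).1
  rcases hm with rfl | ⟨rfl, k | ⟨c, hc, rfl⟩⟩
  · exact cross4 (ih.sq hI (by omega)) (ih.sq hJ (by omega)) (by omega)
      (by rw [add_assoc, add_comm _ 2]; exact hW) (by rw [add_comm]; exact h0) (by omega)
      fun S g => by have := sm S g; omega
  · exact ih.x3 hI hJ (Multiset.mem_add.2 (Or.inl k)) (by omega)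
      (by rw [add_assoc, add_comm _ 1]; exact hW) (by rw [add_comm]; exact h0) c0
      fun S g => by have := sm S g; omega
  · have eb : bS {c} = c / 2 := by simp [bS]
    rw [eb] at hW h0 sm
    rw [Multiset.sum_singleton] at hs c0 sm
    exact ih.x31 hc hJ (by omega) (by rw [add_assoc, add_comm _ 1]; exact hW)
      (by rw [add_comm]; exact h0) c0 fun S g => by have := sm S g; omega

theorem IhA.steps {W : Finset V} (ih : IhA G W.card) {m : ℕ} {J : Multiset ℕ} (hJ : Nz J) (k : ℕ) :
    ∀ I, Nz I → (m = 4 ∨ m = 3 ∧ (3 ∈ I ∨ ∃ c, 5 ≤ c ∧ I = {c})) →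
      I.sum + (Multiset.replicate k m + J).sum = W.card →
      Hap G W (bS I + bS (Multiset.replicate k m + J)) → Big G W I (Multiset.replicate k m + J) →
      Til G W (I + (Multiset.replicate k m + J)) ∨ Big G W (Multiset.replicate k m + I) J := by
  induction k with
  | zero =>
    intro I _ _ _ _ h
    rw [Multiset.replicate_zero, zero_add] at h
    rw [Multiset.replicate_zero, zero_add I]
    exact Or.inr h
  | succ k hk =>
    intro I hI hm hs hW h
    have m3 : 3 ≤ m := by omega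
    rw [Multiset.replicate_succ, Multiset.cons_add] at hs hW h ⊢
    rw [Multiset.add_cons, Multiset.cons_add]
    rcases ih.step hI (hJ.add fun x hx => Multiset.eq_of_mem_replicate hx ▸ m3) hm hs hW h with g | g
    · exact Or.inl g
    · have := hk (m ::ₘ I) (Nz.cons m3 hI.2)
        (by
          rcases hm with e | ⟨rfl, -⟩
          exacts [Or.inl e, Or.inr ⟨rfl, Or.inl (Multiset.mem_cons_self _ _)⟩])
        (by rw [Multiset.sum_cons] at hs ⊢; omega)
        (by rw [bS_cons] at hW ⊢; rw [add_comm (m / 2), add_assoc]; exact hW) g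
      rwa [Multiset.cons_add, Multiset.add_cons] at this

/-- the bottom block: a long cycle together with all cycles of lengths three and four -/
theorem IhA.bottom {W : Finset V} (ih : IhA G W.card) {c : ℕ} {M J : Multiset ℕ} (hc : 5 ≤ c)
    (hM : ∀ x ∈ M, x = 3 ∨ x = 4) (hJ : Nz J) (hs : (c ::ₘ M).sum + J.sum = W.card)
    (hW : Hap G W (bS (c ::ₘ M) + bS J)) : Til G W (c ::ₘ M + J) ∨ Big G W (c ::ₘ M) J := by
  obtain ⟨t, f, rfl⟩ : ∃ t f, M = Multiset.replicate t 3 + Multiset.replicate f 4 := by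
    have k1 := (Multiset.eq_replicate_card (s := M.filter fun x => x = 3) (a := 3)).2
      fun x hx => (Multiset.mem_filter.1 hx).2
    have k2 := (Multiset.eq_replicate_card (s := M.filter fun x => ¬x = 3) (a := 4)).2 fun x hx =>
      (hM x (Multiset.mem_filter.1 hx).1).resolve_left (Multiset.mem_filter.1 hx).2
    exact ⟨_, _, by rw [← k1, ← k2, Multiset.filter_add_not]⟩
  have n3 : ∀ x ∈ Multiset.replicate t 3, 3 ≤ x := fun x hx => (Multiset.eq_of_mem_replicate hx).ge
  have n4 : ∀ x ∈ Multiset.replicate f 4, 3 ≤ x := fun x hx => by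
    have := Multiset.eq_of_mem_replicate hx
    omega
  have nc : Nz {c} := Nz.cons (I := 0) (by omega) (by simp)
  have eb : bS {c} = c / 2 := by simp [bS]
  rw [Multiset.sum_cons, Multiset.sum_add] at hs
  rw [bS_cons, bS_add] at hW
  have e1 : c ::ₘ (Multiset.replicate t 3 + Multiset.replicate f 4) + J =
      {c} + (Multiset.replicate t 3 + (Multiset.replicate f 4 + J)) := by
    rw [← Multiset.singleton_add, add_assoc, add_assoc]
  have e2 : c ::ₘ (Multiset.replicate t 3 + Multiset.replicate f 4) =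
      Multiset.replicate f 4 + (Multiset.replicate t 3 + {c}) := by
    rw [← Multiset.singleton_add]
    abel
  rcases ih.first (a := c) (by omega) ((hJ.add n4).add n3)
    (by rw [Multiset.sum_add, Multiset.sum_add]; omega)
    (by rw [bS_add, bS_add, ← add_assoc (bS _), ← add_assoc]; exact hW) with g | g
  · rw [e1, Multiset.singleton_add]
    exact Or.inl g
  rcases ih.steps (m := 3) (hJ.add n4) t {c} nc (Or.inr ⟨rfl, Or.inr ⟨c, hc, rfl⟩⟩)
    (by rw [Multiset.sum_add, Multiset.sum_add, Multiset.sum_singleton]; omega)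
    (by rw [eb, bS_add, bS_add, ← add_assoc (bS _), ← add_assoc]; exact hW) g with g | g
  · rw [e1]
    exact Or.inl g
  rcases ih.steps (m := 4) hJ f _ (nc.add n3) (Or.inl rfl)
    (by rw [Multiset.sum_add, Multiset.sum_add, Multiset.sum_singleton]; omega)
    (by
      rw [bS_add, bS_add, eb]
      convert hW using 1
      omega) g with g | g
  · rw [e1, ← add_assoc, add_comm ({c} : Multiset ℕ)]
    exact Or.inl g
  · rw [e2]
    exact Or.inr g

end Pool.Agent.Lib.MP_af3016_co
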