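import Pool.Agent.Lib.MP_af3016_co.F.Final

/-! The structure of a triangle crossing for arbitrary lists on both sides. -/

set_option autoImplicit false
set_option linter.unusedSectionVars false

namespace Pool.Agent.Lib.MP_af3016_co

open Finset SimpleGraph

variable {V : Type} [DecidableEq V] {G : SimpleGraph V}

/-- the hypotheses of the middle case -/
structure WsetQ (G : SimpleGraph V) (W A B : Finset V) (w : V) (I J : Multiset ℕ)
    (α β α' β' : ℕ) : Prop where
  sI : Sq G W I α β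
  sJ : Sq G W J α' β'
  hW : ∀ v, v ∈ W ↔ v ∈ A ∨ v = w ∨ v ∈ B
  hd : Disjoint A B
  wA : w ∉ A
  wB : w ∉ B
  cA : A.card = α + β + 1
  cB : B.card = α' + β' + 1
  hA : Hap G (insert w A) (β + 1)
  hB : Hap G (insert w B) (β' + 1)
  eA : dH G w A = β
  eB : dH G w B = β'
  iA : ∀ y ∈ insert w A, ∀ z ∈ insert w A, dH G y (insert w A) = β → dH G z (insert w A) = β →
    ¬G.Adj y z
  iB : ∀ y ∈ insert w B, ∀ z ∈ insert w B, dH G y (insert w B) = β' →
    dH G z (insert w B) = β' → ¬G.Adj y z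
  oA : ∀ y ∈ A, dH G y (insert w A) = β → dH G y B = β'
  oB : ∀ y ∈ B, dH G y (insert w B) = β' → dH G y A = β
  no : ¬Til G W (3 ::ₘ (I + J))

namespace WsetQ

variable {W A B T : Finset V} {w : V} {I J : Multiset ℕ} {α β α' β' : ℕ}
  (h : WsetQ G W A B w I J α β α' β')
include h

theorem symm : WsetQ G W B A w J I α' β' α β :=
  ⟨h.sJ, h.sI, fun v => by rw [h.hW]; tauto, h.hd.symm, h.wB, h.wA, h.cB, h.cA, h.hB, h.hA, h.eB,
    h.eA, h.iB, h.iA, h.oB, h.oA, by rw [add_comm]; exact h.no⟩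

theorem tw : dH G w (insert w A) = β := (dH_insert_self w A).trans h.eA

/-- no triangle with a tight vertex, a second vertex on its side and a vertex of the other side -/
theorem tri {t x u : V} (ht : t ∈ insert w A) (e : dH G t (insert w A) = β) (hx : x ∈ A)
    (hu : u ∈ B) (a : G.Adj t x) (b : G.Adj t u) : ¬G.Adj x u := fun c => by
  have d := Finset.disjoint_left.1 h.hd
  have wA := h.wA
  have wB := h.wB
  have h1 : Hap G ((insert w A \ {t}).erase x) β := (h.hA.drop (singleton_subset_iff.2 ht)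
    fun v hv _ k => ⟨t, mem_singleton_self t, h.iA v hv t ht k e⟩).mono (erase_subset _ _)
  have h2 : Hap G (B.erase u) β' := (h.hB.drop (singleton_subset_iff.2 (mem_insert_self w B))
    fun v hv _ k => ⟨w, mem_singleton_self w, h.iB v hv w (mem_insert_self _ _) k h.symm.tw⟩).mono
      fun v hv => by grind
  have c1 : ((insert w A \ {t}).erase x).card = α + β := by
    rw [card_erase_of_mem (by simp [hx, a.ne.symm]), sdiff_singleton_eq_erase, card_erase_of_mem ht,
      card_insert_of_notMem wA, h.cA]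
    omega
  refine h.no (Til.three (hc_tri a c b.symm).1 (hc_tri a c b.symm).2
    (h.sI.orc _ (fun v hv => (h.hW v).2 (by grind)) c1 h1)
    (h.sJ.orc _ (fun v hv => (h.hW v).2 (by grind)) (by rw [card_erase_of_mem hu, h.cB]; omega) h2)
    ?_ ?_ ?_ fun v => ?_)
  · rw [Finset.disjoint_left]; grind
  · rw [Finset.disjoint_left]; grind
  · rw [Finset.disjoint_left]; grind
  · rw [h.hW]; grind

theorem degA {t : V} (ht : t ∈ insert w A ∧ dH G t (insert w A) = β ∨
    t ∈ insert w B ∧ dH G t (insert w B) = β') : dG G t A = α + 1 := by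
  have c := h.cA
  have hw := dG_add_dH_out (G := G) h.wA
  have e := h.eA
  rcases ht with ⟨a, b⟩ | ⟨a, b⟩ <;> rcases mem_insert.1 a with rfl | k
  · omega
  · have := dG_add_dH_in (G := G) k
    rw [dH_insert_non h.wA (fun e => h.wA (e ▸ k)) (h.iA t a w (mem_insert_self _ _) b h.tw)] at b
    omega
  · omega
  · have := dG_add_dH_out (G := G) (Finset.disjoint_right.1 h.hd k)
    have := h.oB t k b
    omega

theorem cross {y z : V} (hy : y ∈ insert w A) (e : dH G y (insert w A) = β) (hz : z ∈ insert w B)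
    (e' : dH G z (insert w B) = β') : ¬G.Adj y z := fun a => by
  rcases mem_insert.1 hy with rfl | k
  · exact h.iB _ (mem_insert_self _ _) z hz h.symm.tw e' a
  rcases mem_insert.1 hz with rfl | k'
  · exact h.iA y hy _ (mem_insert_self _ _) e h.tw a
  obtain ⟨c, hc, c1, c2⟩ := exists_common (G := G) (a := y) (b := z) (S := A) (by
    rw [h.degA (.inl ⟨hy, e⟩), h.degA (.inr ⟨hz, e'⟩), h.cA]
    have := h.sI.le
    omega)
  exact h.tri hy e hc k' c1 a c2.symm

theorem side (hT : ∀ t, t ∈ T ↔ t ∈ insert w A ∧ dH G t (insert w A) = β ∨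
    t ∈ insert w B ∧ dH G t (insert w B) = β') (i : Ind G T) :
    (A \ T).card + (A ∩ T).card = α + β + 1 ∧ (∀ t ∈ T, dG G t (A \ T) = α + 1) ∧
      ∀ x ∈ A \ T, (∀ t ∈ T, ¬G.Adj t x) → dH G x (A \ T) + (A ∩ T).card + 2 ≤ β := by
  refine ⟨by rw [card_sdiff_add_card_inter, h.cA], fun t ht => ?_, fun x hx k => ?_⟩
  · have := dG_sdiff (G := G) (a := t) (inter_subset_left (s₁ := A) (s₂ := T))
    rwa [sdiff_inter_self_left, dG_eq_zero.2 fun b hb => i t ht b (mem_inter.1 hb).2, add_zero,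
      h.degA ((hT t).1 ht)] at this
  · obtain ⟨a, b⟩ := mem_sdiff.1 hx
    have := dH_sdiff (G := G) (a := x) (inter_subset_left (s₁ := A) (s₂ := T))
    rw [sdiff_inter_self_left, dH_eq_card (a := x) (S := A ∩ T) fun t ht =>
      ⟨fun e => b (e ▸ (mem_inter.1 ht).2), fun e => k t (mem_inter.1 ht).2 e.symm⟩] at this
    have h1 := h.hA x (mem_insert_of_mem a)
    have h2 : dH G x (insert w A) ≠ β := fun e => b ((hT x).2 (.inl ⟨mem_insert_of_mem a, e⟩))
    rw [dH_insert_non h.wA (fun e => h.wA (e ▸ a)) fun e =>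
      k w ((hT w).2 (.inl ⟨mem_insert_self _ _, h.tw⟩)) e.symm] at h1 h2
    omega

end WsetQ

theorem wsetupQ {W A B : Finset V} {w : V} {I J : Multiset ℕ} {α β α' β' : ℕ} (sI : Sq G W I α β)
    (sJ : Sq G W J α' β') (hW : ∀ v, v ∈ W ↔ v ∈ A ∨ v = w ∨ v ∈ B) (hd : Disjoint A B)
    (wA : w ∉ A) (wB : w ∉ B) (cA : A.card = α + β + 1) (cB : B.card = α' + β' + 1)
    (deg : ∀ v ∈ W, dH G v W ≤ β + β')
    (hA : Hap G (insert w A) (β + 1)) (hB : Hap G (insert w B) (β' + 1))
    (eA : dH G w A = β) (eB : dH G w B = β')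
    (iA : ∀ y ∈ insert w A, ∀ z ∈ insert w A, dH G y (insert w A) = β → dH G z (insert w A) = β →
      ¬G.Adj y z)
    (iB : ∀ y ∈ insert w B, ∀ z ∈ insert w B, dH G y (insert w B) = β' →
      dH G z (insert w B) = β' → ¬G.Adj y z)
    (oA : ∀ y ∈ A, dH G y (insert w A) = β → dH G y B = β')
    (oB : ∀ y ∈ B, dH G y (insert w B) = β' → dH G y A = β) :
    Til G W (3 ::ₘ (I + J)) ∨ ∃ A0 B0 T s s', Wd G W A0 B0 T α β s α' β' s' := by
  refine or_iff_not_imp_left.2 fun no => ?_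
  have h : WsetQ G W A B w I J α β α' β' := ⟨sI, sJ, hW, hd, wA, wB, cA, cB, hA, hB, eA, eB, iA, iB,
    oA, oB, no⟩
  obtain ⟨T, hT⟩ : ∃ T : Finset V, ∀ t, t ∈ T ↔ t ∈ insert w A ∧ dH G t (insert w A) = β ∨
      t ∈ insert w B ∧ dH G t (insert w B) = β' :=
    ⟨(insert w A).filter (dH G · (insert w A) = β) ∪ (insert w B).filter (dH G · (insert w B) = β'),
      fun t => by rw [mem_union, mem_filter, mem_filter]⟩
  have i : Ind G T := fun y hy z hz => by
    rcases (hT y).1 hy with a | a <;> rcases (hT z).1 hz with b | b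
    exacts [iA y a.1 z b.1 a.2 b.2, h.cross a.1 a.2 b.1 b.2,
      fun e => h.cross b.1 b.2 a.1 a.2 e.symm, iB y a.1 z b.1 a.2 b.2]
  have wT : w ∈ T := (hT w).2 (.inl ⟨mem_insert_self _ _, h.tw⟩)
  have sub : ∀ t ∈ T, t = w ∨ t ∈ A ∨ t ∈ B := fun t ht => by
    rcases (hT t).1 ht with a | a <;> rcases mem_insert.1 a.1 with b | b <;> tauto
  obtain ⟨a1, a2, a3⟩ := h.side hT i
  obtain ⟨b1, b2, b3⟩ := h.symm.side (fun t => (hT t).trans or_comm) i
  refine ⟨A \ T, B \ T, T, _, _, fun v => by rw [hW]; grind, hd.mono sdiff_subset sdiff_subset,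
    sdiff_disjoint, sdiff_disjoint, a1, b1, ?_, deg, i, a2, b2, fun t ht x hx u hu c d => ?_, a3, b3⟩
  · rw [← card_union_of_disjoint (hd.mono inter_subset_left inter_subset_left),
      ← card_insert_of_notMem (a := w) (by simp [wA, wB])]
    congr 1
    ext t
    grind
  · rcases (hT t).1 ht with a | a
    · exact h.tri a.1 a.2 (sdiff_subset hx) (sdiff_subset hu) c d
    · exact fun e => h.symm.tri a.1 a.2 (sdiff_subset hu) (sdiff_subset hx) d c e.symm

section

variable {W A B T : Finset V} {I J : Multiset ℕ} {α β s α' β' s' : ℕ}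

/-- it suffices to tile the first side together with one vertex of the second -/
theorem Wd.finishQ (h : Wd G W A B T α β s α' β' s') (hle : β ≤ α) (sJ : Sq G W J α' β')
    {T' : Finset V} (hT : T' ⊆ T) (hc : T'.card = s + 1) {u : V} (hu : u ∈ B ∨ (u ∈ T ∧ u ∉ T'))
    (ht : Til G (insert u (A ∪ T')) (3 ::ₘ I)) : Til G W (3 ::ₘ (I + J)) := by
  have k1 : (T \ T').card = s' := by
    have := h.cT
    rw [card_sdiff_of_subset hT]
    omega
  have k2 : u ∈ B ∪ T \ T' := by rwa [mem_union, mem_sdiff]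
  have k3 : Hap G (B ∪ T \ T') β' := fun y hy => by
    rcases mem_union.1 hy with hy | hy
    · exact h.symm.ha hle sdiff_subset (by omega) y hy
    · have := h.symm.ht sdiff_subset y hy
      omega
  have k4 := sJ.orc ((B ∪ T \ T').erase u) (fun v hv => by
    rw [mem_erase, mem_union, mem_sdiff] at hv
    rw [h.mem]
    tauto) (by
      have := h.cB
      rw [card_erase_of_mem k2, card_union_of_disjoint (h.dBT.mono_right sdiff_subset)]
      omega) (k3.mono (erase_subset _ _))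
  have d1 := Finset.disjoint_left.1 h.dAB
  have d2 := Finset.disjoint_left.1 h.dAT
  have d3 := Finset.disjoint_left.1 h.dBT
  have k5 := ht.union k4 (Finset.disjoint_left.2 fun v hv hv' => by
    rw [mem_insert, mem_union] at hv
    rw [mem_erase, mem_union, mem_sdiff] at hv'
    have := @d1 v
    have := @d2 v
    have := @d3 v
    have := @hT v
    tauto)
  rw [Multiset.cons_add] at k5
  convert k5 using 1
  ext v
  rw [h.mem, mem_union, mem_insert, mem_union, mem_erase, mem_union, mem_sdiff]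
  by_cases e : v = u
  · subst e
    tauto
  · have := @hT v
    tauto

/-- an edge of the first side in a triangle that leaves the side has many common neighbours -/
theorem waq_edge (sI : Sq G W I α β) (sJ : Sq G W J α' β') (h : Wd G W A B T α β s α' β' s')
    (hn : ¬Til G W (3 ::ₘ (I + J))) {x y u : V} (hx : x ∈ A) (hy : y ∈ A) (hxy : G.Adj x y)
    (hu : u ∈ B ∨ u ∈ T) (hux : G.Adj u x) (huy : G.Adj u y) :
    ∃ C ⊆ T, s' + 1 ≤ C.card ∧ ∀ t ∈ C, G.Adj t x ∧ G.Adj t y := by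
  classical
  refine ⟨T.filter fun t => G.Adj t x ∧ G.Adj t y, filter_subset _ _, not_lt.1 fun k => hn ?_,
    fun t ht => (mem_filter.1 ht).2⟩
  obtain ⟨T', k1, k2⟩ := exists_subset_card_eq (s := T.filter fun t => ¬(G.Adj t x ∧ G.Adj t y))
    (n := s + 1) (by
      have := card_filter_add_card_filter_not (s := T) fun t => G.Adj t x ∧ G.Adj t y
      have := h.cT
      omega)
  have hT : T' ⊆ T := k1.trans (filter_subset _ _)
  have k3 : u ∉ T' := fun e => (mem_filter.1 (k1 e)).2 ⟨hux, huy⟩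
  have k4 : u ∉ A := fun e => hu.elim (Finset.disjoint_left.1 h.dAB e)
    (Finset.disjoint_left.1 h.dAT e)
  have k5 := h.ha sJ.le hT k2.le
  have k6 : Hap G (A ∪ T') (β + 1) := fun v hv => by
    rcases mem_union.1 hv with hv | hv
    · exact (k5 v hv).trans (Nat.lt_succ_self β)
    · have := h.ht hT v hv
      omega
  have k7 : ({x, y} : Finset V) ⊆ A ∪ T' :=
    insert_subset (mem_union_left _ hx) (singleton_subset_iff.2 (mem_union_left _ hy))
  have k8 := k6.drop k7 fun v hv _ e => by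
    rcases mem_union.1 hv with hv | hv
    · exact absurd e (k5 v hv).ne
    · rcases not_and_or.1 (mem_filter.1 (k1 hv)).2 with g | g
      exacts [⟨x, by simp, g⟩, ⟨y, by simp, g⟩]
  have k9 := sI.orc _ (fun v hv => by
    rw [h.mem]
    rcases mem_union.1 (mem_sdiff.1 hv).1 with hv | hv
    exacts [.inl hv, .inr (.inl (hT hv))]) (by
      have := h.cA
      rw [card_sdiff_of_subset k7, card_pair hxy.ne, card_union_of_disjoint (h.dAT.mono_right hT)]
      omega) k8
  obtain ⟨g1, g2⟩ := hc_tri hux hxy huy.symm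
  refine h.finishQ sI.le sJ hT k2 (hu.imp_right fun e => ⟨e, k3⟩) (k9.add g1 g2
    (Finset.disjoint_left.2 fun v hv hv' => ?_) ?_)
  · rw [mem_sdiff, mem_union] at hv'
    rcases mem_insert.1 hv with rfl | hv
    exacts [hv'.1.elim k4 k3, hv'.2 hv]
  · rw [insert_union, union_sdiff_of_subset k7]

theorem waq_tn (sI : Sq G W I α β) (sJ : Sq G W J α' β') (h : Wd G W A B T α β s α' β' s')
    (hn : ¬Til G W (3 ::ₘ (I + J))) {x y u : V} (hx : x ∈ A) (hy : y ∈ A) (hxy : G.Adj x y)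
    (hu : u ∈ B) (hux : G.Adj u x) (huy : G.Adj u y) : Tn G T x := by
  obtain ⟨C, k1, k2, k3⟩ := waq_edge sI sJ h hn hx hy hxy (.inl hu) hux huy
  obtain ⟨t, ht⟩ := card_pos.1 (show 0 < C.card by omega)
  exact ⟨t, k1 ht, (k3 t ht).1⟩

theorem waq_mu (sI : Sq G W I α β) (sJ : Sq G W J α' β') (h : Wd G W A B T α β s α' β' s')
    (hn : ¬Til G W (3 ::ₘ (I + J))) : ∀ x ∈ A, Tn G T x → s' + 1 ≤ dG G x T := by
  rintro x hx ⟨t, ht, k⟩
  obtain ⟨N, k1, k2⟩ := exists_nbhd (G := G) t A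
  have k3 := dG_add_dH_in (G := G) ((k2 x).2 ⟨hx, k⟩)
  have k4 : dH G x N ≤ dH G x (A ∪ ∅) :=
    dH_mono fun v hv => mem_union_left _ ((k2 v).1 hv).1
  have k5 := h.ha sJ.le (empty_subset T) (by simp) x hx
  have k6 := h.tA t ht
  have k7 := sI.le
  obtain ⟨y, hy, hxy⟩ := exists_adj (show 0 < dG G x N by omega)
  obtain ⟨C, g1, g2, g3⟩ := waq_edge sI sJ h hn hx ((k2 y).1 hy).1 hxy (.inr ht) k ((k2 y).1 hy).2
  exact g2.trans (le_dG fun b hb => ⟨g1 hb, (g3 b hb).1.symm⟩)

theorem wfactsQ (sI : Sq G W I α β) (sJ : Sq G W J α' β') (h : Wd G W A B T α β s α' β' s') :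
    Til G W (3 ::ₘ (I + J)) ∨ Wf G A B T s s' := by
  refine or_iff_not_imp_left.2 fun hn => ?_
  have hn' : ¬Til G W (3 ::ₘ (J + I)) := by rwa [add_comm]
  have mA := waq_mu sI sJ h hn
  have mB := waq_mu sJ sI h.symm hn'
  have xy : ∀ x ∈ A, ∀ u ∈ B, Tn G T x → Tn G T u → ¬G.Adj x u := fun x hx u hu g1 g2 => by
    have k1 := mA x hx g1
    have k2 := mB u hu g2
    have k3 := h.cT
    obtain ⟨t, ht, k4, k5⟩ := exists_common (show T.card < dG G x T + dG G u T by omega)
    exact h.o1 t ht x hx u hu k4.symm k5.symm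
  refine ⟨mA, mB, xy, fun x hx u hu g1 g2 g3 => ?_, fun u hu g x hx y hy g1 g2 g3 =>
    xy x hx u hu (waq_tn sI sJ h hn hx hy g3 hu g1 g2) g g1.symm, fun x hx g u hu v hv g1 g2 g3 =>
    xy x hx u hu g (waq_tn sJ sI h.symm hn' hu hv g3 hx g1 g2) g1⟩
  have e : W = A ∪ T ∪ B := by
    ext v
    rw [h.mem, mem_union, mem_union, or_assoc]
  have k1 : W.card = A.card + T.card + B.card := by
    rw [e, card_union_of_disjoint (disjoint_union_left.2 ⟨h.dAB, h.dBT.symm⟩),
      card_union_of_disjoint h.dAT]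
  have w1 := (h.mem x).2 (.inl hx)
  have w2 := (h.mem u).2 (.inr (.inr hu))
  have k2 := dG_add_dH_in (G := G) w1
  have k3 := dG_add_dH_in (G := G) w2
  have k4 := h.deg x w1
  have k5 := h.deg u w2
  have := h.cA
  have := h.cB
  have := h.cT
  have := sI.le
  have := sJ.le
  obtain ⟨z, hz, k6, k7⟩ := exists_common (show W.card < dG G x W + dG G u W by omega)
  rcases (h.mem z).1 hz with hz | hz | hz
  · exact g1 (waq_tn sI sJ h hn hx hz k6 hu g3.symm k7)
  · exact g1 ⟨z, hz, k6.symm⟩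
  · exact g2 (waq_tn sJ sI h.symm hn' hu hz k7 hx g3 k6)

end

theorem cross3Q {W S0 : Finset V} {I J : Multiset ℕ} {α β α' β' : ℕ} (sI : Sq G W I α β)
    (sJ : Sq G W J α' β') (cW : W.card = α + β + α' + β' + 3) (hW : Hap G W (β + β' + 1))
    (h0 : IsMin G W β (β' + 1) S0) (c0 : α + β < S0.card)
    (h1 : ∀ S, IsMin G W (β + 1) β' S → S.card < α + β + 3) :
    Til G W (3 ::ₘ (I + J)) ∨
      (∃ S, S ⊆ W ∧ α + β < S.card ∧ S.card < α + β + 3 ∧ Hap G S β ∧ Hap G (W \ S) β') ∨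
      ∃ A B T s s', Wd G W A B T α β s α' β' s' ∧ Wf G A B T s s' := by
  obtain ⟨S1, m1⟩ := exists_isMin G W (β + 1) β'
  have c1 := h1 S1 m1
  have hW0 : Hap G W (β + (β' + 1)) := hW
  have hW1 : Hap G W (β + 1 + β') := by rw [add_right_comm]; exact hW
  have hW2 : Hap G W (β' + (β + 1)) := by rw [add_comm]; exact hW1
  have s0 := pf_shift (G := G) β β' h0.1
  have s1 := pf_shift (G := G) β β' m1.1
  have l0 := h0.le m1.1
  have l1 := m1.le h0.1
  by_cases a0 : Hap G (W \ S0) β'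
  · exact Or.inr (Or.inl ⟨S0, h0.1, c0, by omega, h0.hap1 hW0, a0⟩)
  by_cases a1 : Hap G S1 β
  · exact Or.inr (Or.inl ⟨S1, m1.1, by omega, c1, a1, (m1.hap hW1).2⟩)
  unfold Hap at a0 a1
  push Not at a0 a1
  obtain ⟨w, hw, ew⟩ := a0
  obtain ⟨y, hy, ey⟩ := a1
  have hwS : w ∉ S0 := (mem_sdiff.1 hw).2
  have hwW : w ∈ W := (mem_sdiff.1 hw).1
  have hA : insert w S0 ⊆ W := insert_subset hwW h0.1
  have eB : W \ insert w S0 = (W \ S0).erase w := sdiff_insert W S0 w
  have g1 := pf_erase (G := G) β (β' + 1) m1.1 hy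
  have g2 := h0.le ((erase_subset y S1).trans m1.1)
  have g3 := dH_sdiff (G := G) (a := y) m1.1
  have g4 := hW y (m1.1 hy)
  have k1 := pf_erase (G := G) (β + 1) β' hA (mem_insert_self w S0)
  have k0 := pf_erase (G := G) β (β' + 1) hA (mem_insert_self w S0)
  rw [erase_insert hwS, dH_insert_self, eB, dH_erase_self] at k1 k0
  have k2 := m1.le hA
  have k3 := dH_sdiff (G := G) (a := w) h0.1
  have k4 := hW w hwW
  push_cast at g1 k1 k0
  have m2 : IsMin G W (β + 1) β' (insert w S0) := m1.of_le hA (by omega)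
  have nA := pf_near hW0 h0 hA (by omega)
  have nB := pf_near hW2 m2.mirror (sdiff_subset : W \ S0 ⊆ W) (by
    rw [pf_mirror _ _ h0.1, pf_mirror _ _ hA]
    omega)
  have hc := card_sdiff_add_card_eq_card h0.1
  have hc' := card_erase_add_one hw
  rw [eB] at nA
  rw [Finset.sdiff_sdiff_eq_self h0.1] at nB
  have eI : insert w ((W \ S0).erase w) = W \ S0 := insert_erase hw
  rcases wsetupQ (A := S0) (B := (W \ S0).erase w) (w := w) sI sJ
    (fun v => by
      rw [mem_split h0.1 v, ← eI, mem_insert, erase_insert (notMem_erase w _)])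
    (disjoint_sdiff.mono_right (erase_subset _ _)) hwS (notMem_erase w _) (by omega) (by omega)
    (fun v hv => Nat.lt_succ_iff.1 (hW v hv)) (m2.hap1 hW1) (by rw [eI]; exact (h0.hap hW0).2)
    (by omega) (by rw [dH_erase_self]; omega) nA.1 (by rw [eI]; exact nB.1)
    (fun v hv => nA.2 v (mem_insert_of_mem hv))
    (by rw [eI]; exact fun v hv => nB.2 v (mem_of_mem_erase hv)) with g | ⟨A0, B0, T, s, s', g⟩
  · exact Or.inl g
  · exact (wfactsQ sI sJ g).imp_right fun f => Or.inr ⟨A0, B0, T, s, s', g, f⟩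

/-- both sides happy: a triangle across the cut, or independent neighbourhoods -/
theorem case0Q {W R P : Finset V} {I J : Multiset ℕ} {α β α' β' : ℕ} (sI : Sq G W I α β)
    (sJ : Sq G W J α' β') (hW : ∀ v, v ∈ W ↔ v ∈ R ∨ v ∈ P) (hd : Disjoint R P)
    (cR : R.card = α + β + 1) (cP : P.card = α' + β' + 2) (hR : Hap G R β) (hP : Hap G P β')
    (deg : ∀ v ∈ W, dH G v W ≤ β + β') : Til G W (3 ::ₘ (I + J)) ∨ C0 G R P α β α' β' := by
  have eW : W = R ∪ P := by
    ext v
    rw [hW, mem_union]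
  have dj := Finset.disjoint_left.1 hd
  by_cases hA : ∀ a ∈ R, ∀ z ∈ P, ∀ z' ∈ P, G.Adj a z → G.Adj a z' → ¬G.Adj z z'
  · exact Or.inr ⟨hd, cR, cP, hP, fun v hv => by
      rw [← dH_union hd, ← eW]
      exact deg v ((hW v).2 hv), hA, sI.le, sJ.le, sI.two⟩
  push Not at hA
  obtain ⟨a, ha, z, hz, z', hz', e1, e2, e3⟩ := hA
  obtain ⟨h1, h2⟩ := hc_tri e1 e3 e2.symm
  have hQ : ({z, z'} : Finset V) ⊆ P := by simp [insert_subset_iff, hz, hz']
  have c1 := card_sdiff_add_card_eq_card hQ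
  rw [card_pair e3.ne] at c1
  have t1 := sI.orc (R.erase a) (fun v hv => (hW v).2 (.inl (mem_of_mem_erase hv)))
    (by rw [card_erase_of_mem ha]; omega) (hR.mono (erase_subset _ _))
  have t2 := sJ.orc (P \ {z, z'}) (fun v hv => (hW v).2 (.inr (mem_sdiff.1 hv).1)) (by omega)
    (hP.mono sdiff_subset)
  refine Or.inl (Til.three h1 h2 t1 t2 ?_ ?_ ?_ fun v => ?_)
  · rw [Finset.disjoint_left]; grind
  · rw [Finset.disjoint_left]; grind
  · rw [Finset.disjoint_left]; grind
  · rw [hW]; grind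

end Pool.Agent.Lib.MP_af3016_co
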