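import Pool.Agent.Lib.MP_af3016_co.G.Str3

/-! A triangle crossing when the list contains a second triangle. -/

set_option autoImplicit false
set_option linter.unusedSectionVars false

namespace Pool.Agent.Lib.MP_af3016_co

open Finset SimpleGraph

variable {V : Type} [DecidableEq V] {G : SimpleGraph V}

/-- two non-neighbours inside a removed set -/
theorem x3_two {y p q : V} {W Q : Finset V} (hQ : Q ⊆ W) (hy : y ∉ Q) (hp : p ∈ Q) (hq : q ∈ Q)
    (hpq : p ≠ q) (h1 : ¬G.Adj y p) (h2 : ¬G.Adj y q) : dH G y (W \ Q) + 2 ≤ dH G y W := by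
  have g1 := dH_sdiff (G := G) (a := y) hQ
  have g2 : ({p, q} : Finset V).card ≤ dH G y Q := le_dH fun b hb => by
    simp only [mem_insert, mem_singleton] at hb
    rcases hb with rfl | rfl
    exacts [⟨hp, fun e => hy (e ▸ hp), h1⟩, ⟨hq, fun e => hy (e ▸ hq), h2⟩]
  rw [card_pair hpq] at g2
  omega

/-- two disjoint triangles that contain two non-neighbours of every other vertex -/
theorem x3_fin {W : Finset V} {K : Multiset ℕ} {n γ : ℕ} (orc : Orc G W n γ K)
    (cW : W.card = n + 6) (deg : ∀ v ∈ W, dH G v W ≤ γ + 1) {a b c d e f : V} (ha : a ∈ W)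
    (hb : b ∈ W) (hc : c ∈ W) (hd : d ∈ W) (he : e ∈ W) (hf : f ∈ W) (ab : G.Adj a b)
    (bc : G.Adj b c) (ca : G.Adj c a) (de : G.Adj d e) (ef : G.Adj e f) (fd : G.Adj f d)
    (dj : Disjoint ({a, b, c} : Finset V) {d, e, f})
    (h : ∀ y ∈ W, y ∉ ({a, b, c} ∪ {d, e, f} : Finset V) →
      ∃ p ∈ ({a, b, c} ∪ {d, e, f} : Finset V), ∃ q ∈ ({a, b, c} ∪ {d, e, f} : Finset V),
        p ≠ q ∧ ¬G.Adj y p ∧ ¬G.Adj y q) : Til G W (3 ::ₘ 3 ::ₘ K) := by
  obtain ⟨h1, h2⟩ := hc_tri ab bc ca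
  obtain ⟨h3, h4⟩ := hc_tri de ef fd
  have hQ : ({a, b, c} ∪ {d, e, f} : Finset V) ⊆ W := by
    simp [insert_subset_iff, union_subset_iff, *]
  have c1 := card_sdiff_add_card_eq_card hQ
  rw [card_union_of_disjoint dj, h2, h4] at c1
  have t := orc (W \ ({a, b, c} ∪ {d, e, f})) sdiff_subset (by omega) fun y hy => by
    obtain ⟨p, hp, q, hq, k1, k2, k3⟩ := h y (mem_sdiff.1 hy).1 (mem_sdiff.1 hy).2
    have := x3_two hQ (mem_sdiff.1 hy).2 hp hq k1 k2 k3
    have := deg y (mem_sdiff.1 hy).1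
    omega
  refine (t.add h3 h4 (disjoint_sdiff.mono_left subset_union_right) rfl).add h1 h2
    (disjoint_union_right.2 ⟨dj, disjoint_sdiff.mono_left subset_union_left⟩) ?_
  rw [← union_assoc, union_sdiff_of_subset hQ]

/-- a triangle with one vertex in `P` and two in `R` -/
theorem C0.tri {R P : Finset V} {α β α' β' : ℕ} (h : C0 G R P α β α' β') {a v : V} (ha : a ∈ R)
    (hv : v ∈ P) (e : G.Adj a v) : ∃ a' ∈ R, G.Adj a a' ∧ G.Adj v a' := by
  have g1 := h.c hv
  have g2 := h.zh ha hv e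
  have g3 := dG_add_dH_out (G := G) (Finset.disjoint_left.1 h.hd ha)
  have g4 := h.deg a (.inl ha)
  have g5 := dG_add_dH_in (G := G) ha
  have := h.cP
  have := h.le
  have := h.le'
  exact exists_common (by omega)

theorem x3_zero {W R P : Finset V} {K : Multiset ℕ} {α β α' β' n γ : ℕ} (h : C0 G R P α β α' β')
    (hW : ∀ v, v ∈ W ↔ v ∈ R ∨ v ∈ P) (orc : Orc G W n γ K) (cW : W.card = n + 6)
    (deg : ∀ v ∈ W, dH G v W ≤ γ + 1) : Til G W (3 ::ₘ 3 ::ₘ K) := by
  have dj := Finset.disjoint_left.1 h.hd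
  have cR := h.cR
  have cP := h.cP
  have le' := h.le'
  obtain ⟨a, ha⟩ : R.Nonempty := card_pos.1 (by omega)
  obtain ⟨v, hv, e⟩ := exists_adj (G := G) (a := a) (S := P) (by have := h.z3 ha; omega)
  obtain ⟨a', ha', e1, e2⟩ := h.tri ha hv e
  have dP : ∀ y ∈ P, α' + 1 ≤ dG G y (P.erase v) := fun y hy => by
    have g1 := h.d hy
    have g2 := dG_sdiff (G := G) (a := y) (singleton_subset_iff.2 hv)
    have g3 := dG_le_card (G := G) y {v}
    rw [sdiff_singleton_eq_erase] at g2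
    rw [card_singleton] at g3
    omega
  have cv := card_erase_add_one hv
  obtain ⟨z, hz, kz⟩ : ∃ z ∈ P.erase v, ∀ y ∈ P.erase v, G.Adj a y → G.Adj a' y → G.Adj a z := by
    by_cases k : ∃ y ∈ P.erase v, G.Adj a y
    · obtain ⟨y, hy, k⟩ := k
      exact ⟨y, hy, fun _ _ _ _ => k⟩
    · obtain ⟨z, hz⟩ : (P.erase v).Nonempty := card_pos.1 (by omega)
      exact ⟨z, hz, fun y hy k1 _ => absurd ⟨y, hy, k1⟩ k⟩
  obtain ⟨z1, hz1, f1⟩ := exists_adj (G := G) (a := z) (S := P.erase v) (by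
    have := dP z (mem_of_mem_erase hz)
    omega)
  obtain ⟨z2, hz2, f2, f3⟩ := exists_common (G := G) (a := z) (b := z1) (S := P.erase v) (by
    have := dP z (mem_of_mem_erase hz)
    have := dP z1 (mem_of_mem_erase hz1)
    omega)
  have m0 := mem_of_mem_erase hz
  have m1 := mem_of_mem_erase hz1
  have m2 := mem_of_mem_erase hz2
  refine x3_fin orc cW deg ((hW _).2 (.inr hv)) ((hW _).2 (.inl ha)) ((hW _).2 (.inl ha'))
    ((hW _).2 (.inr m0)) ((hW _).2 (.inr m1)) ((hW _).2 (.inr m2)) e.symm e1 e2.symm f1 f3 f2.symm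
    (by rw [Finset.disjoint_left]; grind) fun y hy hy' => ?_
  rcases (hW y).1 hy with k | k
  · have i1 := h.ind y k z m0 z1 m1
    have i2 := h.ind y k z m0 z2 m2
    have i3 := h.ind y k z1 m1 z2 m2
    by_cases k0 : G.Adj y z
    · exact ⟨z1, by simp, z2, by simp, f3.ne, fun g => i1 k0 g f1, fun g => i2 k0 g f2⟩
    · by_cases k1 : G.Adj y z1
      · exact ⟨z, by simp, z2, by simp, f2.ne, k0, fun g => i3 k1 g f3⟩
      · exact ⟨z, by simp, z1, by simp, f1.ne, k0, k1⟩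
  · have yv : y ≠ v := fun g => hy' (by simp [g])
    by_cases k0 : G.Adj a y <;> by_cases k1 : G.Adj a' y
    · exact ⟨v, by simp, z, by simp, (ne_of_mem_erase hz).symm, h.ind a ha y k v hv k0 e,
        h.ind a ha y k z m0 k0 (kz y (mem_erase.2 ⟨yv, k⟩) k0 k1)⟩
    · exact ⟨v, by simp, a', by simp, e2.ne, h.ind a ha y k v hv k0 e, fun g => k1 g.symm⟩
    · exact ⟨v, by simp, a, by simp, e.ne.symm, h.ind a' ha' y k v hv k1 e2.symm,
        fun g => k0 g.symm⟩
    · exact ⟨a, by simp, a', by simp, e1.ne, fun g => k0 g.symm, fun g => k1 g.symm⟩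

section

variable {W A B T : Finset V} {α β s α' β' s' : ℕ}

/-- an edge of the first side in the neighbourhood of a middle vertex -/
theorem Wd.edge (h : Wd G W A B T α β s α' β' s') (hle : β ≤ α) (hle' : β' ≤ α') {t : V}
    (ht : t ∈ T) : ∃ x ∈ A, ∃ x' ∈ A, G.Adj t x ∧ G.Adj t x' ∧ G.Adj x x' := by
  have k6 := h.tA t ht
  obtain ⟨x, hx, k⟩ := exists_adj (G := G) (a := t) (S := A) (by omega)
  have k5 := h.ha hle' (empty_subset T) (by simp) x hx
  rw [union_empty] at k5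
  have k3 := dG_add_dH_in (G := G) hx
  obtain ⟨y, hy, k1, k2⟩ := exists_common (G := G) (a := t) (b := x) (S := A) (by omega)
  exact ⟨x, hx, y, hy, k, k1, k2⟩

theorem x3_big (h : Wd G W A B T α β s α' β' s') (f : Wf G A B T s s') (hle : β ≤ α)
    (hle' : β' ≤ α') (h2 : 1 ≤ s + s') {K : Multiset ℕ} {n γ : ℕ} (orc : Orc G W n γ K)
    (cW : W.card = n + 6) (deg : ∀ v ∈ W, dH G v W ≤ γ + 1) : Til G W (3 ::ₘ 3 ::ₘ K) := by
  obtain ⟨t, ht, t', ht', ne⟩ := one_lt_card.1 (show 1 < T.card by have := h.cT; omega)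
  obtain ⟨x, hx, x', hx', e1, e2, e3⟩ := h.edge hle hle' ht
  obtain ⟨u, hu, u', hu', f1, f2, f3⟩ := h.symm.edge hle' hle ht'
  have d1 := Finset.disjoint_left.1 h.dAB
  have d2 := Finset.disjoint_left.1 h.dAT
  have d3 := Finset.disjoint_left.1 h.dBT
  refine x3_fin orc cW deg ((h.mem _).2 (.inr (.inl ht))) ((h.mem _).2 (.inl hx))
    ((h.mem _).2 (.inl hx')) ((h.mem _).2 (.inr (.inl ht'))) ((h.mem _).2 (.inr (.inr hu)))
    ((h.mem _).2 (.inr (.inr hu'))) e1 e3 e2.symm f1 f3 f2.symm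
    (by rw [Finset.disjoint_left]; grind) fun y hy _ => ?_
  by_cases k : Tn G T y
  · rcases (h.mem y).1 hy with g | g | g
    · exact ⟨u, by simp, u', by simp, f3.ne, f.xy y g u hu k ⟨t', ht', f1⟩,
        f.xy y g u' hu' k ⟨t', ht', f2⟩⟩
    · obtain ⟨z, hz, k⟩ := k
      exact absurd k (h.ind z hz y g)
    · exact ⟨x, by simp, x', by simp, e3.ne, fun e => f.xy x hx y g ⟨t, ht, e1⟩ k e.symm,
        fun e => f.xy x' hx' y g ⟨t, ht, e2⟩ k e.symm⟩
  · exact ⟨t, by simp, t', by simp, ne, fun e => k ⟨t, ht, e.symm⟩, fun e => k ⟨t', ht', e.symm⟩⟩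

/-- a triangle with one vertex of the second side that misses the middle set -/
theorem Wd.qtri (h : Wd G W A B T α β s α' β' 0) (f : Wf G A B T s 0) (hle : β ≤ α)
    (hle' : β' ≤ α') {x q : V} (hx : x ∈ A) (tx : Tn G T x) (hq : q ∈ B) (e : G.Adj x q) :
    ∃ x' ∈ A, G.Adj x x' ∧ G.Adj q x' := by
  have g1 := wcase_nb f.symm hx tx hq e
  have g2 := wcase_deg h (Or.inl hx)
  have g3 := dG_add_dH_out (G := G) (Finset.disjoint_left.1 h.dAB hx)
  have g4 := wcase_out h.symm hq fun k => f.xy x hx q hq tx k e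
  have g5 := dG_add_dH_in (G := G) hx
  have := h.cB
  exact exists_common (by omega)

theorem x3_one (h : Wd G W A B T α β 0 α' β' 0) (f : Wf G A B T 0 0) (hlt : β < α)
    (hle' : β' ≤ α') (h1 : 1 ≤ β') {I0 J : Multiset ℕ} {n γ : ℕ} (hn : n + 3 = α + β)
    (hγ : γ + 1 = β) (orc : Orc G W n γ I0) (sJ : Sq G W J α' β') :
    Til G W (3 ::ₘ (3 ::ₘ I0 + J)) := by
  obtain ⟨w, rfl⟩ := card_eq_one.1 h.cT
  have hw := mem_singleton_self w
  have tn : ∀ y, Tn G {w} y ↔ G.Adj w y := fun y =>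
    ⟨fun ⟨t, ht, k⟩ => mem_singleton.1 ht ▸ k, fun k => ⟨w, hw, k⟩⟩
  have cA := h.cA
  have cB := h.cB
  have tA := h.tA w hw
  have tB := h.tB w hw
  have d1 := Finset.disjoint_left.1 h.dAB
  have d2 := Finset.disjoint_left.1 h.dAT
  have d3 := Finset.disjoint_left.1 h.dBT
  have hA : ∀ y ∈ A, dH G y A + 2 ≤ β := by
    intro y hy
    by_cases k : Tn G {w} y
    · have g1 := wcase_up h.symm f.symm hy k
      have g2 := wcase_deg h (Or.inl hy)
      have g3 := dG_add_dH_out (G := G) (d1 hy)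
      omega
    · exact h.pA y hy fun t ht g => k ⟨t, ht, g⟩
  obtain ⟨x, hx, q, hq, tx, e⟩ : ∃ x ∈ A, ∃ q ∈ B, Tn G {w} x ∧ G.Adj x q := by
    by_contra k
    push Not at k
    obtain ⟨x, hx, e⟩ := exists_adj (G := G) (a := w) (S := A) (by omega)
    have g1 := dG_eq_zero.2 fun q hq => k x hx q hq ((tn x).2 e)
    have g2 := wcase_deg h (Or.inl hx)
    have g3 := dG_add_dH_out (G := G) (d1 hx)
    have g4 := dG_add_dH_out (G := G) (Finset.disjoint_right.1 h.dBT hw)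
    obtain ⟨N, n1, n2⟩ := exists_non (G := G) w B
    obtain ⟨q, hq⟩ : N.Nonempty := card_pos.1 (by omega)
    obtain ⟨q1, -, q2⟩ := (n2 q).1 hq
    have g5 := wcase_out h.symm q1 fun g => q2 ((tn q).1 g)
    have g6 : dG G q A = 0 := dG_eq_zero.2 fun y hy g => by
      by_cases ty : Tn G {w} y
      · exact k y hy q q1 ty g.symm
      · exact f.pp y hy q q1 ty (fun g => q2 ((tn q).1 g)) g.symm
    omega
  obtain ⟨x', hx', e1, e2⟩ := h.qtri f hlt.le hle' hx tx hq e
  have s1 : ({x, x'} : Finset V) ⊆ A := insert_subset hx (singleton_subset_iff.2 hx')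
  have c1 := card_sdiff_add_card_eq_card s1
  rw [card_pair e1.ne] at c1
  have dd : ∀ y, dG G y A ≤ dG G y (A \ {x, x'}) + 2 := fun y => by
    have g1 := dG_sdiff (G := G) (a := y) s1
    have g2 := dG_le_card (G := G) y {x, x'}
    rw [card_pair e1.ne] at g2
    omega
  have b2 := hA x hx
  obtain ⟨y, hy, e3⟩ := exists_adj (G := G) (a := w) (S := A \ {x, x'}) (by have := dd w; omega)
  obtain ⟨y', hy', e4, e5⟩ := exists_common (G := G) (a := w) (b := y) (S := A \ {x, x'}) (by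
    have := dd w
    have := dG_add_dH_in (G := G) hy
    have := dH_mono (G := G) (a := y) (sdiff_subset : A \ {x, x'} ⊆ A)
    have := hA y (mem_sdiff.1 hy).1
    omega)
  have s2 : ({y, y'} : Finset V) ⊆ A \ {x, x'} := insert_subset hy (singleton_subset_iff.2 hy')
  have c2 := card_sdiff_add_card_eq_card s2
  rw [card_pair e5.ne] at c2
  have t1 := orc ((A \ {x, x'}) \ {y, y'})
    (fun v hv => (h.mem v).2 (.inl (mem_sdiff.1 (mem_sdiff.1 hv).1).1)) (by omega) fun v hv => by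
      have := dH_mono (G := G) (a := v) (sdiff_subset.trans sdiff_subset :
        (A \ {x, x'}) \ {y, y'} ⊆ A)
      have := hA v (mem_sdiff.1 (mem_sdiff.1 hv).1).1
      omega
  obtain ⟨k1, k2⟩ := hc_tri e3 e5 e4.symm
  obtain ⟨k3, k4⟩ := hc_tri e.symm e1 e2.symm
  have t2 := t1.add k1 k2 (by rw [Finset.disjoint_left]; grind) rfl
  refine h.finishQ hlt.le sJ subset_rfl (card_singleton w) (Or.inl hq)
    (t2.add k3 k4 (by rw [Finset.disjoint_left]; grind) ?_)
  ext v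
  grind

end

end Pool.Agent.Lib.MP_af3016_co
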