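import Pool.Agent.Lib.MP_af3016_co.G.X3

/-! A triangle crossing when one side is a single cycle of length at least five. -/

set_option autoImplicit false
set_option linter.unusedSectionVars false

namespace Pool.Agent.Lib.MP_af3016_co

open Finset SimpleGraph

variable {V : Type} [DecidableEq V] {G : SimpleGraph V}

/-- two vertices of small degree are allowed if their neighbours can be chosen suitably -/
theorem lemQ2 {K : Finset V} {t t' p1 p2 p3 p4 : V} (ht : t ∉ K) (ht' : t' ∉ K) (tt : t ≠ t')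
    (h1 : p1 ∈ K) (h2 : p2 ∈ K) (h3 : p3 ∈ K) (h4 : p4 ∈ K) (a1 : G.Adj t p1) (a2 : G.Adj t p2)
    (a3 : G.Adj t' p3) (a4 : G.Adj t' p4) (n12 : p1 ≠ p2) (n34 : p3 ≠ p4) (n14 : p1 ≠ p4)
    (n13 : p1 ≠ p3) (n24 : p2 ≠ p4)
    (h : ∀ y ∈ K, dH G y (insert t (insert t' K)) < (K.card + 2) / 2) :
    HC G (insert t (insert t' K)) := by
  have cK : Clq (kl2_plus G K) K := fun a ha b hb h => ⟨h, Or.inr ⟨ha, hb⟩⟩
  have c0 : (insert t (insert t' K)).card = K.card + 2 := by
    rw [card_insert_of_notMem (by simp [tt, ht]), card_insert_of_notMem ht']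
  have p0 : HP (kl2_plus G K) p4 p1 ((K.erase p2).erase p3) :=
    HP.clique _ _ p4 p1 rfl (cK.mono fun x hx => mem_of_mem_erase (mem_of_mem_erase hx))
      (by simp [h4, n34.symm, n24.symm]) (by simp [h1, n12, n13]) n14.symm
  have p1' := p0.cons (kl2_le K a4) (by simp [ht'])
  have p2' := p1'.cons (kl2_le K a3.symm) (by simp [a3.ne.symm])
  have p3' : HP (kl2_plus G K) p2 p1 (insert t' K) := by
    by_cases e : p2 = p3
    · subst e
      convert p2' using 1
      ext v
      grind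
    · convert p2'.cons (cK p2 h2 p3 h3 e) (by grind) using 1
      ext v
      grind
  refine closure (p3'.close n12.symm (by simp [tt, ht]) (kl2_le K a2) (kl2_le K a1))
    fun x hx y hy g1 g2 => ?_
  obtain ⟨g3, g4⟩ := g1.2.resolve_left g2
  have := dG_add_dH_in (G := G) hx
  have := dG_add_dH_in (G := G) hy
  have := h x g3
  have := h y g4
  omega

/-- both sides happy, the smaller side carries the single cycle -/
theorem x31_zero {W R P : Finset V} {J : Multiset ℕ} {c α' β' : ℕ} (hc : 5 ≤ c)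
    (h : C0 G R P ((c + 1) / 2) (c / 2) α' β') (hW : ∀ v, v ∈ W ↔ v ∈ R ∨ v ∈ P)
    (sJ : Sq G W J α' β') : Til G W (3 ::ₘ ({c} + J)) := by
  have dj := Finset.disjoint_left.1 h.hd
  have cR := h.cR
  have cP := h.cP
  have le' := h.le'
  have lt := h.lt
  have hR : ∀ a ∈ R, dH G a R + 2 ≤ c / 2 := by
    intro a ha
    obtain ⟨v, hv, e⟩ := exists_adj (G := G) (a := a) (S := P) (by have := h.z3 ha; omega)
    have g1 := h.zh ha hv e
    have g2 := h.hP v hv
    have g3 := dG_add_dH_out (G := G) (dj ha)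
    have g4 := h.deg a (.inl ha)
    omega
  obtain ⟨a, ha⟩ : R.Nonempty := card_pos.1 (by omega)
  obtain ⟨v, hv, e⟩ := exists_adj (G := G) (a := a) (S := P) (by have := h.z3 ha; omega)
  obtain ⟨a', ha', e1, e2⟩ := h.tri ha hv e
  have s1 : ({a, a'} : Finset V) ⊆ R := insert_subset ha (singleton_subset_iff.2 ha')
  have c1 := card_sdiff_add_card_eq_card s1
  rw [card_pair e1.ne] at c1
  have dd : ∀ y, dG G y R ≤ dG G y (R \ {a, a'}) + 2 := fun y => by
    have g1 := dG_sdiff (G := G) (a := y) s1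
    have g2 := dG_le_card (G := G) y {a, a'}
    rw [card_pair e1.ne] at g2
    omega
  have de : ∀ y, dG G y P ≤ dG G y (P.erase v) + 1 := fun y => by
    have g2 := dG_sdiff (G := G) (a := y) (singleton_subset_iff.2 hv)
    have g3 := dG_le_card (G := G) y {v}
    rw [sdiff_singleton_eq_erase] at g2
    rw [card_singleton] at g3
    omega
  obtain ⟨u, hu, ku⟩ : ∃ u ∈ P.erase v, 2 ≤ dG G u (R \ {a, a'}) := by
    by_contra k
    push Not at k
    obtain ⟨g, hg⟩ : ∃ g, β' = (c + 1) / 2 + g := ⟨β' - (c + 1) / 2, by omega⟩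
    have up : ∀ b ∈ R, G.Adj b v → dG G b (P.erase v) ≤ g + 2 := by
      intro b hb eb
      by_contra k1
      obtain ⟨u, hu, k2⟩ := exists_adj (G := G) (a := b) (S := P.erase v) (by omega)
      have g1 := h.c (mem_of_mem_erase hu)
      have g2 := h.zh hb (mem_of_mem_erase hu) k2
      have g3 := dd u
      have g4 := k u hu
      have g5 := dG_sdiff (G := G) (a := b) (singleton_subset_iff.2 hv)
      have g6 : dG G b {v} = 1 := by
        rw [dG_eq_card fun x hx => mem_singleton.1 hx ▸ eb, card_singleton]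
      rw [sdiff_singleton_eq_erase] at g5
      omega
    obtain ⟨N, n1, n2⟩ := exists_nbhd (G := G) a (P.erase v)
    obtain ⟨M, m1, m2⟩ := exists_nbhd (G := G) a' (P.erase v)
    have sU : ∀ u ∈ N ∪ M, u ∈ P.erase v := fun u hu =>
      (mem_union.1 hu).elim (fun g => ((n2 u).1 g).1) fun g => ((m2 u).1 g).1
    have s2 : ∑ b ∈ R \ {a, a'}, dG G b (N ∪ M) ≤ (N ∪ M).card * 1 := by
      rw [sum_dG_comm, ← smul_eq_mul]
      exact sum_le_card_nsmul _ _ _ fun u hu => Nat.lt_succ_iff.1 (k u (sU u hu))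
    have s3 : (R \ {a, a'}).card * (g + 1) ≤ ∑ b ∈ R \ {a, a'}, dG G b (N ∪ M) := by
      rw [← smul_eq_mul]
      refine card_nsmul_le_sum _ _ _ fun b hb => ?_
      have hb' := (mem_sdiff.1 hb).1
      have g1 := h.z hb'
      have g2 := de b
      obtain ⟨Z, z1, z2⟩ := exists_nbhd (G := G) b (P.erase v)
      have g3 : Z.card ≤ dG G b (N ∪ M) := le_dG fun u hu => by
        obtain ⟨u1, u2⟩ := (z2 u).1 hu
        refine ⟨?_, u2⟩
        by_contra k1
        rw [mem_union, n2, m2] at k1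
        have g4 := h.c (mem_of_mem_erase u1)
        have g5 := h.zh hb' (mem_of_mem_erase u1) u2
        have g6 := dG_sdiff (G := G) (a := u) s1
        have g7 : dG G u {a, a'} = 0 := dG_eq_zero.2 fun x hx k2 => by
          simp only [mem_insert, mem_singleton] at hx
          rcases hx with rfl | rfl
          exacts [k1 (.inl ⟨u1, k2.symm⟩), k1 (.inr ⟨u1, k2.symm⟩)]
        have g8 := k u u1
        omega
      omega
    have s4 := card_union_le N M
    have s5 := up a ha e
    have s6 := up a' ha' e2.symm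
    have s7 := Nat.mul_le_mul_right (g + 1) (show 4 ≤ (R \ {a, a'}).card by omega)
    omega
  have hu' := mem_of_mem_erase hu
  have uR : u ∉ R \ {a, a'} := fun g => dj (mem_sdiff.1 g).1 hu'
  have k0 := lemQ uR ku fun y hy => by
    have := c0_ins (G := G) y u (R \ {a, a'})
    have := dH_mono (G := G) (a := y) (sdiff_subset : R \ {a, a'} ⊆ R)
    have := hR y (mem_sdiff.1 hy).1
    omega
  have t1 := Til.one k0
  rw [card_insert_of_notMem uR, show (R \ {a, a'}).card + 1 = c by omega] at t1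
  have cv := card_erase_add_one hv
  have cu := card_erase_add_one hu
  have t2 := sJ.orc ((P.erase v).erase u)
    (fun y hy => (hW y).2 (.inr (mem_of_mem_erase (mem_of_mem_erase hy)))) (by omega)
    (h.hP.mono ((erase_subset _ _).trans (erase_subset _ _)))
  obtain ⟨k1, k2⟩ := hc_tri e.symm e1 e2.symm
  refine Til.three k1 k2 t1 t2 ?_ ?_ ?_ fun y => ?_
  · rw [Finset.disjoint_left]; grind
  · rw [Finset.disjoint_left]; grind
  · rw [Finset.disjoint_left]; grind
  · rw [hW]; grind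

/-- both sides happy, the larger side carries the single cycle -/
theorem x31_zero' {W R P : Finset V} {J : Multiset ℕ} {c α β : ℕ} (hc : 5 ≤ c)
    (h : C0 G R P α β ((c + 1) / 2) (c / 2)) (hW : ∀ v, v ∈ W ↔ v ∈ R ∨ v ∈ P) (hR : Hap G R β)
    (sJ : Sq G W J α β) : Til G W (3 ::ₘ ({c} + J)) := by
  have dj := Finset.disjoint_left.1 h.hd
  have cR := h.cR
  obtain ⟨a, ha⟩ : R.Nonempty := card_pos.1 (by omega)
  have t1 := h.peel (c := c) (r := 0) (by omega) rfl rfl ha
  have t2 := sJ.orc (R.erase a) (fun y hy => (hW y).2 (.inl (mem_of_mem_erase hy)))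
    (by rw [card_erase_of_mem ha]; omega) (hR.mono (erase_subset _ _))
  have k := t1.union t2 (by rw [Finset.disjoint_left]; grind)
  rw [zero_add, Multiset.replicate_one, ← Multiset.cons_zero, Multiset.cons_swap,
    Multiset.cons_add, Multiset.cons_zero] at k
  convert k using 1
  ext y
  rw [hW]
  grind

theorem x31_mid {W A B T : Finset V} {J : Multiset ℕ} {c s α' β' s' : ℕ} (hc : 5 ≤ c)
    (h : Wd G W A B T ((c + 1) / 2) (c / 2) s α' β' s') (f : Wf G A B T s s')
    (sI : Sq G W {c} ((c + 1) / 2) (c / 2)) (sJ : Sq G W J α' β') :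
    Til G W (3 ::ₘ ({c} + J)) := by
  have le := sI.le
  have le' := sJ.le
  have cA := h.cA
  have cB := h.cB
  have cT := h.cT
  have d1 := Finset.disjoint_left.1 h.dAB
  have d2 := Finset.disjoint_left.1 h.dAT
  have d3 := Finset.disjoint_left.1 h.dBT
  by_cases q1 : ∃ x ∈ A, Tn G T x ∧ α' < s' + 1 + dG G x B
  · obtain ⟨x, hx, tx, k⟩ := q1
    have g1 := wcase_up h.symm f.symm hx tx
    obtain ⟨T', a1, a2, a3⟩ := wcase_sub f.symm hx tx
    rw [add_comm]
    exact h.symm.finishQ le' sI a1 a2 (Or.inl hx)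
      (special0 h.symm f.symm le (by omega) sJ.two (by omega) sJ.orc a1 a2 hx a3)
  push Not at q1
  by_cases q2 : ∃ u ∈ B, Tn G T u ∧ 3 ≤ s + 1 + dG G u A
  · obtain ⟨u, hu, tu, k⟩ := q2
    obtain ⟨T', a1, a2, a3⟩ := wcase_sub f hu tu
    exact h.finishQ le sJ a1 a2 (Or.inl hu)
      (moveA3 (a := c) (r := 0) h f le' (by omega) rfl rfl a1 a2 hu a3 k q1)
  push Not at q2
  obtain ⟨u0, hu0, k0⟩ := wcase_ex h
  have b1 := q2 u0 hu0 k0
  have b2 := wcase_low h hu0
  have key : ∀ T', T' ⊆ T → T'.card = s + 1 → (∀ x ∈ A, ∀ x' ∈ A, G.Adj x x' →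
      HC G ((A \ {x, x'}) ∪ T')) → Til G W (3 ::ₘ ({c} + J)) := by
    intro T' a1 a2 a3
    obtain ⟨z, hz, x, hx, x', hx', e1, e2, e3⟩ : ∃ z, (z ∈ B ∨ z ∈ T ∧ z ∉ T') ∧
        ∃ x ∈ A, ∃ x' ∈ A, G.Adj z x ∧ G.Adj z x' ∧ G.Adj x x' := by
      by_cases e : s' = 0
      · subst e
        obtain ⟨x, hx, tx⟩ := wcase_ex h.symm
        have g2 := wcase_deg h (Or.inl hx)
        have g3 := dG_add_dH_out (G := G) (d1 hx)
        obtain ⟨q, hq, e⟩ := exists_adj (G := G) (a := x) (S := B) (by omega)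
        obtain ⟨x', hx', e1, e2⟩ := h.qtri f le le' hx tx hq e
        exact ⟨q, Or.inl hq, x, hx, x', hx', e.symm, e2, e1⟩
      · obtain ⟨z, hz, hz'⟩ := exists_mem_notMem_of_card_lt_card (show T'.card < T.card by omega)
        exact ⟨z, Or.inr ⟨hz, hz'⟩, h.edge le le' hz⟩
    have s1 : ({x, x'} : Finset V) ⊆ A := insert_subset hx (singleton_subset_iff.2 hx')
    have c1 := card_sdiff_add_card_eq_card s1
    rw [card_pair e3.ne] at c1
    have t1 := Til.one (a3 x hx x' hx' e3)
    rw [card_union_of_disjoint (h.dAT.mono sdiff_subset a1),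
      show (A \ {x, x'}).card + T'.card = c by omega] at t1
    obtain ⟨k1, k2⟩ := hc_tri e1 e3 e2.symm
    have a1' := @a1
    refine h.finishQ le sJ a1 a2 hz (t1.add k1 k2 (by rw [Finset.disjoint_left]; grind) ?_)
    ext y
    grind
  have dd : ∀ x ∈ A, ∀ x' ∈ A, G.Adj x x' → (A \ {x, x'}).card + 2 = A.card ∧
      ∀ y, dG G y A ≤ dG G y (A \ {x, x'}) + 2 := fun x hx x' hx' e => by
    have s1 : ({x, x'} : Finset V) ⊆ A := insert_subset hx (singleton_subset_iff.2 hx')
    have c1 := card_sdiff_add_card_eq_card s1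
    rw [card_pair e.ne] at c1
    refine ⟨c1, fun y => ?_⟩
    have g1 := dG_sdiff (G := G) (a := y) s1
    have g2 := dG_le_card (G := G) y {x, x'}
    rw [card_pair e.ne] at g2
    omega
  obtain ⟨t, ht⟩ : T.Nonempty := card_pos.1 (by omega)
  have tA := h.tA t ht
  by_cases e : s = 0
  · subst e
    refine key {t} (singleton_subset_iff.2 ht) (card_singleton t) fun x hx x' hx' e => ?_
    obtain ⟨g1, g2⟩ := dd x hx x' hx' e
    rw [union_comm, ← insert_eq]
    refine lemQ (fun g => d2 (mem_sdiff.1 g).1 ht) (by have := g2 t; omega) fun y hy => ?_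
    have g3 := h.ha le' (singleton_subset_iff.2 ht) (by simp) y (mem_sdiff.1 hy).1
    have g4 : dH G y (insert t (A \ {x, x'})) ≤ dH G y (A ∪ {t}) := dH_mono fun v hv => by
      simp only [mem_insert, mem_union, mem_sdiff, mem_singleton] at hv ⊢
      tauto
    omega
  obtain rfl : s = 1 := by omega
  have allT : ∀ p ∈ A, Tn G T p := by
    intro p hp
    by_contra k
    have g1 := wcase_out h hp k
    have g2 : dG G p B = 0 := dG_eq_zero.2 fun u hu g => by
      by_cases tu : Tn G T u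
      · have := q2 u hu tu
        exact dG_eq_zero.1 (show dG G u A = 0 by omega) p hp g.symm
      · exact f.pp p hp u hu k tu g
    omega
  have g0 := dG_add_dH_out (G := G) (Finset.disjoint_right.1 h.dAT ht)
  obtain ⟨N, n1, n2⟩ := exists_non (G := G) t A
  obtain ⟨y0, hy0⟩ : N.Nonempty := card_pos.1 (by omega)
  obtain ⟨y1, -, y2⟩ := (n2 y0).1 hy0
  obtain ⟨t', ht', y3⟩ := allT y0 y1
  have tt : t ≠ t' := fun g => y2 (g ▸ y3)
  have tA' := h.tA t' ht'
  have sT : ({t, t'} : Finset V) ⊆ T := insert_subset ht (singleton_subset_iff.2 ht')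
  refine key {t, t'} sT (card_pair tt) fun x hx x' hx' e => ?_
  obtain ⟨g1, g2⟩ := dd x hx x' hx' e
  have g3 := g2 t
  have g4 := g2 t'
  obtain ⟨p1, h1, p2, h2, p3, h3, p4, h4, a1, a2, a3, a4, n12, n34, n14, n13, n24⟩ :
      ∃ p1 ∈ A \ {x, x'}, ∃ p2 ∈ A \ {x, x'}, ∃ p3 ∈ A \ {x, x'}, ∃ p4 ∈ A \ {x, x'},
        G.Adj t p1 ∧ G.Adj t p2 ∧ G.Adj t' p3 ∧ G.Adj t' p4 ∧ p1 ≠ p2 ∧ p3 ≠ p4 ∧ p1 ≠ p4 ∧
          p1 ≠ p3 ∧ p2 ≠ p4 := by
    by_cases k : y0 ∈ A \ {x, x'}
    · obtain ⟨p3, h3, a3, n3⟩ := exists_adj_notMem (G := G) (a := t') (S := A \ {x, x'})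
        (R := {y0}) (by rw [card_singleton]; omega)
      obtain ⟨p1, h1, a1, n1⟩ := exists_adj_notMem (G := G) (a := t) (S := A \ {x, x'})
        (R := {p3}) (by rw [card_singleton]; omega)
      obtain ⟨p2, h2, a2, n2⟩ := exists_adj_notMem (G := G) (a := t) (S := A \ {x, x'})
        (R := {p1}) (by rw [card_singleton]; omega)
      rw [mem_singleton] at n1 n2 n3
      exact ⟨p1, h1, p2, h2, p3, h3, y0, k, a1, a2, a3, y3, Ne.symm n2, n3,
        fun g => y2 (g ▸ a1), n1, fun g => y2 (g ▸ a2)⟩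
    · have g5 : dG G t A ≤ dG G t (A \ {x, x'}) + 1 := by
        have s1 : ({x, x'} : Finset V) ⊆ A := insert_subset hx (singleton_subset_iff.2 hx')
        have k1 := dG_sdiff (G := G) (a := t) s1
        have k2 := dG_add_dH_out (G := G) (fun g => d2 (s1 g) ht)
        have k3 := dH_pos (G := G) (a := t) (S := {x, x'}) (b := y0)
          (by_contra fun g => k (mem_sdiff.2 ⟨y1, g⟩)) (fun g => d2 y1 (g ▸ ht)) y2
        rw [card_pair e.ne] at k2
        omega
      obtain ⟨p3, h3, a3⟩ := exists_adj (G := G) (a := t') (S := A \ {x, x'}) (by omega)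
      obtain ⟨p4, h4, a4, n4⟩ := exists_adj_notMem (G := G) (a := t') (S := A \ {x, x'})
        (R := {p3}) (by rw [card_singleton]; omega)
      obtain ⟨p1, h1, a1, n1⟩ := exists_adj_notMem (G := G) (a := t) (S := A \ {x, x'})
        (R := {p3, p4}) (by have := card_le_two (a := p3) (b := p4); omega)
      obtain ⟨p2, h2, a2, n2⟩ := exists_adj_notMem (G := G) (a := t) (S := A \ {x, x'})
        (R := {p1, p4}) (by have := card_le_two (a := p1) (b := p4); omega)
      simp only [mem_insert, mem_singleton, not_or] at n1 n2 n4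
      exact ⟨p1, h1, p2, h2, p3, h3, p4, h4, a1, a2, a3, a4, Ne.symm n2.1, Ne.symm n4, n1.2, n1.1,
        n2.2⟩
  have k := lemQ2 (fun g => d2 (mem_sdiff.1 g).1 ht) (fun g => d2 (mem_sdiff.1 g).1 ht') tt h1 h2
    h3 h4 a1 a2 a3 a4 n12 n34 n14 n13 n24 fun y hy => by
      have g5 := h.ha le' sT (card_pair tt).le y (mem_sdiff.1 hy).1
      have g6 : dH G y (insert t (insert t' (A \ {x, x'}))) ≤ dH G y (A ∪ {t, t'}) :=
        dH_mono fun v hv => by
          simp only [mem_insert, mem_union, mem_sdiff, mem_singleton] at hv ⊢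
          tauto
      omega
  convert k using 1
  ext v
  simp only [mem_insert, mem_union, mem_singleton]
  tauto

end Pool.Agent.Lib.MP_af3016_co
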